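import Pool.Agent.H93.ES.Targets

/-!
# Row WN2: the number of words near a given word
-/

set_option autoImplicit false

open Finset Pool.Agent.H18.MR Pool.Agent.H93.DE Pool.Agent.H6.N4D Pool.Agent.H93 Pool.Agent.H93.ES

namespace Pool.Agent.H17.ES

/-- the generating function of the distance from a word -/
theorem sum_pow_dist {L : ℕ} (δ : ℝ) (c : Fin L → Bool) :
    ∑ v : Fin L → Bool, δ ^ ((univ : Finset (Fin L)).filter (fun t => v t ≠ c t)).card =
      (1 + δ) ^ L := by
  have h1 : ∀ v : Fin L → Bool, δ ^ ((univ : Finset (Fin L)).filter (fun t => v t ≠ c t)).card =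
      ∏ t, (if v t ≠ c t then δ else 1) := by
    intro v
    rw [Finset.prod_ite, Finset.prod_const, Finset.prod_const_one, mul_one]
  rw [Finset.sum_congr rfl fun v _ => h1 v]
  have h2 := Finset.prod_univ_sum (fun _ : Fin L => (univ : Finset Bool))
    (fun t b => if b ≠ c t then δ else (1 : ℝ))
  rw [Fintype.piFinset_univ] at h2
  rw [← h2]
  have h3 : ∀ t : Fin L, ∑ b : Bool, (if b ≠ c t then δ else (1 : ℝ)) = 1 + δ := by
    intro t
    rw [Fintype.sum_bool]
    cases c t
    · simp
      ring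
    · simp
  rw [Finset.prod_congr rfl fun t _ => h3 t, Finset.prod_const, Finset.card_univ,
    Fintype.card_fin]

theorem pf_WN2 : T_WN2 := by
  intro L δ c h0 h1
  set S := (univ : Finset (Fin L → Bool)).filter (fun v =>
    (((univ : Finset (Fin L)).filter (fun t => v t ≠ c t)).card : ℝ) ≤ δ * L) with hS
  have h2 : ∀ v ∈ S, δ ^ (δ * L) ≤
      δ ^ ((univ : Finset (Fin L)).filter (fun t => v t ≠ c t)).card := by
    intro v hv
    rw [hS, mem_filter] at hv
    rw [← Real.rpow_natCast]
    exact Real.rpow_le_rpow_of_exponent_ge h0 h1 hv.2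
  have h3 : (S.card : ℝ) * δ ^ (δ * L) ≤ (1 + δ) ^ L := by
    calc (S.card : ℝ) * δ ^ (δ * L) = ∑ v ∈ S, δ ^ (δ * L) := by
          rw [Finset.sum_const, nsmul_eq_mul]
      _ ≤ ∑ v ∈ S, δ ^ ((univ : Finset (Fin L)).filter (fun t => v t ≠ c t)).card :=
          Finset.sum_le_sum h2
      _ ≤ ∑ v : Fin L → Bool,
            δ ^ ((univ : Finset (Fin L)).filter (fun t => v t ≠ c t)).card :=
          Finset.sum_le_sum_of_subset_of_nonneg (Finset.subset_univ _)
            fun v _ _ => pow_nonneg h0.le _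
      _ = (1 + δ) ^ L := sum_pow_dist δ c
  have h4 : (1 + δ) ^ L ≤ Real.exp (δ * L) := by
    have h5 : 1 + δ ≤ Real.exp δ := by
      have := Real.add_one_le_exp δ
      linarith
    calc (1 + δ) ^ L ≤ (Real.exp δ) ^ L := pow_le_pow_left₀ (by linarith) h5 L
      _ = Real.exp (δ * L) := by rw [← Real.exp_nat_mul, mul_comm]
  have h6 : δ ^ (δ * L) = Real.exp (-(δ * L * Real.log (1 / δ))) := by
    rw [Real.rpow_def_of_pos h0, one_div, Real.log_inv]
    congr 1
    ring
  have h7 : (S.card : ℝ) * Real.exp (-(δ * L * Real.log (1 / δ))) ≤ Real.exp (δ * L) := by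
    rw [← h6]
    exact h3.trans h4
  calc (S.card : ℝ) = (S.card : ℝ) * Real.exp (-(δ * L * Real.log (1 / δ))) *
        Real.exp (δ * L * Real.log (1 / δ)) := by
        rw [mul_assoc, ← Real.exp_add, neg_add_cancel, Real.exp_zero, mul_one]
    _ ≤ Real.exp (δ * L) * Real.exp (δ * L * Real.log (1 / δ)) :=
        mul_le_mul_of_nonneg_right h7 (Real.exp_pos _).le
    _ = Real.exp (L * (δ + δ * Real.log (1 / δ))) := by
        rw [← Real.exp_add]
        congr 1
        ring

end Pool.Agent.H17.ES
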