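import Pool.Agent.H93.ES.Targets

/-!
# Row WN3: the entropy of a variable which is usually in a given set
-/

set_option autoImplicit false

open Finset Pool.Agent.H18.MR Pool.Agent.H93.DE Pool.Agent.H6.N4D Pool.Agent.H93 Pool.Agent.H93.ES

namespace Pool.Agent.H17.ES

theorem pf_WN3 : T_WN3 := by
  intro Ω α _ _ μ X T hT
  have hn : (1 : ℝ) ≤ T.card := by exact_mod_cast hT.card_pos
  have hA : (T.card : ℝ) ≤ Fintype.card α := by exact_mod_cast Finset.card_le_univ T
  have hn0 : (0 : ℝ) < T.card := by linarith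
  have hA0 : (0 : ℝ) < Fintype.card α := by linarith
  set s : α → ℝ := fun a => if a ∈ T then 1 / (2 * (T.card : ℝ)) else
    1 / (2 * (Fintype.card α : ℝ)) with hs
  have hspos : ∀ a, 0 < s a := by
    intro a
    rw [hs]
    change 0 < if a ∈ T then 1 / (2 * (T.card : ℝ)) else 1 / (2 * (Fintype.card α : ℝ))
    split_ifs <;> positivity
  have g := gibbs Finset.univ (law μ X) s (law_nonneg μ X) (fun a => (hspos a).le)
    (fun a h => absurd h (hspos a).ne')
  rw [law_sum] at g
  have hsum : ∑ a, s a ≤ 1 := by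
    rw [hs, Finset.sum_ite, Finset.sum_const, Finset.sum_const, nsmul_eq_mul, nsmul_eq_mul]
    have h1 : (Finset.univ.filter (fun a => a ∈ T)).card = T.card := by
      congr 1
      ext a
      simp
    have h2 : ((Finset.univ.filter (fun a => ¬ a ∈ T)).card : ℝ) ≤ Fintype.card α := by
      exact_mod_cast Finset.card_le_univ _
    rw [h1]
    calc (T.card : ℝ) * (1 / (2 * (T.card : ℝ))) +
          ((Finset.univ.filter (fun a => ¬ a ∈ T)).card : ℝ) * (1 / (2 * (Fintype.card α : ℝ)))
        ≤ (T.card : ℝ) * (1 / (2 * (T.card : ℝ))) +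
          (Fintype.card α : ℝ) * (1 / (2 * (Fintype.card α : ℝ))) := by
          gcongr
      _ = 1 := by
          field_simp
          norm_num
  have h3 : ent μ X ≤ -∑ a, law μ X a * Real.log (s a) := by
    unfold ent
    linarith
  have h4 : ∑ a, law μ X a * Real.log (s a) =
      -((∑ a ∈ T, law μ X a) * (Real.log 2 + Real.log T.card)) -
        (∑ a ∈ Tᶜ, law μ X a) * (Real.log 2 + Real.log (Fintype.card α)) := by
    rw [← Finset.sum_add_sum_compl T]
    have h5 : ∑ a ∈ T, law μ X a * Real.log (s a) =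
        -((∑ a ∈ T, law μ X a) * (Real.log 2 + Real.log T.card)) := by
      rw [Finset.sum_mul, ← Finset.sum_neg_distrib]
      apply Finset.sum_congr rfl
      intro a ha
      have h6 : s a = 1 / (2 * (T.card : ℝ)) := by
        rw [hs]
        exact if_pos ha
      rw [h6, one_div, Real.log_inv, Real.log_mul two_ne_zero hn0.ne']
      ring
    have h7 : ∑ a ∈ Tᶜ, law μ X a * Real.log (s a) =
        -((∑ a ∈ Tᶜ, law μ X a) * (Real.log 2 + Real.log (Fintype.card α))) := by
      rw [Finset.sum_mul, ← Finset.sum_neg_distrib]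
      apply Finset.sum_congr rfl
      intro a ha
      have h6 : s a = 1 / (2 * (Fintype.card α : ℝ)) := by
        rw [hs]
        exact if_neg (Finset.mem_compl.1 ha)
      rw [h6, one_div, Real.log_inv, Real.log_mul two_ne_zero hA0.ne']
      ring
    rw [h5, h7]
    ring
  have h8 : μ.P {ω | X ω ∉ T} = ∑ a ∈ Tᶜ, law μ X a := by
    rw [← P_pre_finset]
    congr 1
    ext ω
    simp
  have h9 : (∑ a ∈ T, law μ X a) + ∑ a ∈ Tᶜ, law μ X a = 1 := by
    rw [Finset.sum_add_sum_compl T, law_sum]
  have h10 : 0 ≤ ∑ a ∈ Tᶜ, law μ X a := Finset.sum_nonneg fun a _ => law_nonneg μ X a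
  have h11 : 0 ≤ Real.log (T.card : ℝ) := Real.log_nonneg hn
  rw [h8]
  rw [h4] at h3
  have h12 : (∑ a ∈ T, law μ X a) = 1 - ∑ a ∈ Tᶜ, law μ X a := by linarith
  rw [h12] at h3
  nlinarith [mul_nonneg h10 h11]

end Pool.Agent.H17.ES
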